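import Pool.Agent.R260.SzA

set_option autoImplicit false

open Filter Set Topology Metric Pool.Agent.R260.Sz

namespace Pool.Agent.Results.MP_51e19e_an.FewRealZeros

/-- `f_a(t) = ∑_{n ≥ 1} a_n / (t² + n²)` -/
noncomputable def f (a : ℕ → ℝ) (t : ℝ) : ℝ := ∑' n : ℕ, a (n + 1) / (t ^ 2 + ((n : ℝ) + 1) ^ 2)

/-- the set of real zeros of `f_a` in `(-X, X)` -/
def zeros (a : ℕ → ℝ) (X : ℝ) : Set ℝ := {t | |t| < X ∧ f a t = 0}

lemma f_eq (a : ℕ → ℝ) (t : ℝ) : ((f a t : ℝ) : ℂ) = F (fun n => a (n + 1)) (t : ℂ) := by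
  unfold f F
  rw [Complex.ofReal_tsum]
  congr 1
  ext n
  push_cast
  ring

lemma f_zero_iff (a : ℕ → ℝ) (t : ℝ) : f a t = 0 ↔ F (fun n => a (n + 1)) (t : ℂ) = 0 := by
  rw [← f_eq, Complex.ofReal_eq_zero]

lemma f_even (a : ℕ → ℝ) (t : ℝ) : f a |t| = f a t := by
  unfold f; simp [sq_abs]

/-- For every sign sequence `a`, the set of real zeros of `f_a` in `(-X,X)` is finite for each `X`,
and its cardinality `Z_a(X)` satisfies `Z_a(X)/X → 0` as `X → ∞`. -/
theorem result (a : ℕ → ℝ) (ha : ∀ n, 1 ≤ n → a n = 1 ∨ a n = -1) :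
    (∀ X, (zeros a X).Finite) ∧
      Tendsto (fun X : ℝ => ((zeros a X).ncard : ℝ) / X) atTop (𝓝 0) := by
  set b : ℕ → ℝ := fun n => a (n + 1) with hb
  have hb1 : ∀ n, |b n| = 1 := by
    intro n
    rcases ha (n + 1) (by omega) with h | h
    · rw [hb]; simp [h]
    · rw [hb]; simp [h]
  have hfin : ∀ X, (zeros a X).Finite := by
    intro X
    apply (fin_zeros b hb1 X).subset
    rintro t ⟨h1, h2⟩
    exact ⟨h1.le, (f_zero_iff a t).mp h2⟩
  refine ⟨hfin, ?_⟩
  -- a base point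
  obtain ⟨x0, hx0, hFx0⟩ : ∃ x0 : ℝ, 1 < x0 ∧ F b x0 ≠ 0 := by
    by_contra hcon
    push Not at hcon
    have hsub : Ioo (1:ℝ) 2 ⊆ {t : ℝ | |t| ≤ 2 ∧ F b t = 0} := by
      intro t ht
      refine ⟨?_, hcon t ht.1⟩
      rw [abs_of_pos (by linarith [ht.1])]; exact ht.2.le
    exact (Ioo_infinite (by norm_num : (1:ℝ) < 2)) ((fin_zeros b hb1 2).subset hsub)
  obtain ⟨C, hC⟩ := zeros_sum b hb1 x0 hx0 hFx0
  set S : Set ℝ := {t | 2 * x0 ≤ t ∧ f a t = 0} with hS
  have hSsum : Summable (fun t : S => 1 / (t:ℝ)) := by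
    apply summable_of_sum_le (c := C)
    · intro t
      have := t.2.1
      apply div_nonneg one_pos.le; linarith
    · intro u
      have h1 := hC (u.map (Function.Embedding.subtype _)) (by
        intro t ht
        rw [Finset.mem_map] at ht
        obtain ⟨t', _, rfl⟩ := ht
        exact ⟨t'.2.1, (f_zero_iff a _).mp t'.2.2⟩)
      rw [Finset.sum_map] at h1
      exact h1
  rw [Metric.tendsto_atTop]
  intro ε hε
  obtain ⟨F0, hF0⟩ := summable_iff_vanishing_norm.mp hSsum (ε / 4) (by positivity)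
  -- the fixed finite set
  set B : Set ℝ := zeros a (2 * x0) ∪ ((fun t : S => (t:ℝ)) '' F0 ∪ (fun t : S => -(t:ℝ)) '' F0)
    with hB
  have hBfin : B.Finite := (hfin _).union
    ((F0.finite_toSet.image _).union (F0.finite_toSet.image _))
  set K : ℕ := B.ncard with hK
  refine ⟨max 1 (4 * (K + 1) / ε), ?_⟩
  intro X hX
  have hX1 : 1 ≤ X := (le_max_left _ _).trans hX
  have hX2 : 4 * ((K:ℝ) + 1) / ε ≤ X := (le_max_right _ _).trans hX
  have hX0 : 0 < X := by linarith
  -- the set T of remaining positive zeros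
  set TS : Set S := {t : S | (t:ℝ) < X ∧ t ∉ F0} with hTS
  have hTSfin : TS.Finite := by
    apply Set.Finite.of_finite_image (f := fun t : S => (t:ℝ)) _ Subtype.val_injective.injOn
    apply (hfin X).subset
    rintro _ ⟨t, ht, rfl⟩
    refine ⟨?_, t.2.2⟩
    have := t.2.1
    simp only
    rw [abs_of_pos (by linarith)]
    exact ht.1
  set T : Finset S := hTSfin.toFinset with hT
  have hTcard : (T.card : ℝ) / X ≤ ε / 4 := by
    have h1 := hF0 T (by
      rw [Finset.disjoint_left]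
      intro t ht
      rw [hT, Set.Finite.mem_toFinset] at ht
      exact ht.2)
    have h2 : (T.card : ℝ) / X ≤ ∑ t ∈ T, 1 / (t:ℝ) := by
      have h3 : (T.card : ℝ) / X = ∑ t ∈ T, 1 / X := by
        rw [Finset.sum_const, nsmul_eq_mul]; ring
      rw [h3]
      apply Finset.sum_le_sum
      intro t ht
      rw [hT, Set.Finite.mem_toFinset] at ht
      have h4 := t.2.1
      have h5 := ht.1
      have : (0:ℝ) < t := by linarith
      gcongr
    have h3 := (le_abs_self (∑ t ∈ T, 1 / (t:ℝ))).trans (Real.norm_eq_abs _ ▸ h1.le)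
    linarith
  have hcover : zeros a X ⊆ B ∪ (((fun t : S => (t:ℝ)) '' TS) ∪ ((fun t : S => -(t:ℝ)) '' TS)) := by
    rintro t ⟨h1, h2⟩
    by_cases h3 : |t| < 2 * x0
    · left; left; exact ⟨h3, h2⟩
    · push Not at h3
      have hmem : |t| ∈ S := ⟨h3, by rw [f_even]; exact h2⟩
      by_cases h4 : (⟨|t|, hmem⟩ : S) ∈ F0
      · left; right
        rcases le_total 0 t with h5 | h5
        · left; exact ⟨⟨|t|, hmem⟩, h4, abs_of_nonneg h5⟩
        · right
          refine ⟨⟨|t|, hmem⟩, h4, ?_⟩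
          simp only
          rw [abs_of_nonpos h5, neg_neg]
      · right
        rcases le_total 0 t with h5 | h5
        · left; exact ⟨⟨|t|, hmem⟩, ⟨h1, h4⟩, abs_of_nonneg h5⟩
        · right
          refine ⟨⟨|t|, hmem⟩, ⟨h1, h4⟩, ?_⟩
          simp only
          rw [abs_of_nonpos h5, neg_neg]
  have hcard : (zeros a X).ncard ≤ K + (T.card + T.card) := by
    have hf1 : ((fun t : S => (t:ℝ)) '' TS).Finite := hTSfin.image _
    have hf2 : ((fun t : S => -(t:ℝ)) '' TS).Finite := hTSfin.image _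
    have hTn : TS.ncard = T.card := Set.ncard_eq_toFinset_card TS hTSfin
    calc (zeros a X).ncard
        ≤ (B ∪ (((fun t : S => (t:ℝ)) '' TS) ∪ ((fun t : S => -(t:ℝ)) '' TS))).ncard :=
          Set.ncard_le_ncard hcover (hBfin.union (hf1.union hf2))
      _ ≤ B.ncard + (((fun t : S => (t:ℝ)) '' TS) ∪ ((fun t : S => -(t:ℝ)) '' TS)).ncard :=
          Set.ncard_union_le _ _
      _ ≤ K + (T.card + T.card) := by
          apply Nat.add_le_add_left
          refine (Set.ncard_union_le _ _).trans ?_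
          apply Nat.add_le_add
          · rw [← hTn]; exact Set.ncard_image_le hTSfin
          · rw [← hTn]; exact Set.ncard_image_le hTSfin
  rw [Real.dist_eq, sub_zero, abs_of_nonneg (by positivity)]
  have h1 : ((zeros a X).ncard : ℝ) ≤ K + (T.card + T.card) := by exact_mod_cast hcard
  have h2 : ((zeros a X).ncard : ℝ) / X ≤ K / X + (T.card / X + T.card / X) := by
    rw [← add_div, ← add_div]
    gcongr
  have h3 : (K:ℝ) / X ≤ ε / 4 := by
    rw [div_le_iff₀ hX0]
    rw [div_le_iff₀ hε] at hX2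
    linarith
  linarith

end Pool.Agent.Results.MP_51e19e_an.FewRealZeros
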